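import Pool.Agent.Helper50.VD.St

open MeasureTheory Set Filter Topology
open scoped ENNReal

noncomputable section

namespace VD.M_E7

theorem lin (f1 f2 f3 : ℝ × ℝ → ℝ) (a b : ℝ) (h1 : Integrable f1) (h2 : Integrable f2)
    (h3 : Integrable f3) :
    ∫ x, (f1 x - a * f2 x + b * f3 x) = (∫ x, f1 x) - a * (∫ x, f2 x) + b * ∫ x, f3 x := by
  have e1 : ∫ x, (f1 x - a * f2 x + b * f3 x) =
      (∫ x, (f1 x - a * f2 x)) + ∫ x, b * f3 x :=
    integral_add (h1.sub (h2.const_mul a)) (h3.const_mul b)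
  have e2 : ∫ x, (f1 x - a * f2 x) = (∫ x, f1 x) - ∫ x, a * f2 x :=
    integral_sub h1 (h2.const_mul a)
  rw [e1, e2, integral_const_mul, integral_const_mul]

theorem quad (hE4 : StE4) (A C : Set (ℝ × ℝ)) (hA : MeasurableSet A) (hC : MeasurableSet C)
    (hAO : A ⊆ Om) (hCO : C ⊆ Om) (hAb : ∃ R, A ⊆ Box R) (hCb : ∃ R, C ⊆ Box R) (t : ℝ) :
    0 ≤ BG A A - 2 * t * BG A C + t ^ 2 * BG C C := by
  obtain ⟨-, i1, e1⟩ := hE4 A A hA hA hAO hAO hAb hAb
  obtain ⟨-, i2, e2⟩ := hE4 A C hA hC hAO hCO hAb hCb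
  obtain ⟨-, i3, e3⟩ := hE4 C C hC hC hCO hCO hCb hCb
  have h1 : 0 ≤ ∫ x, (((vA A x).1 * (vA A x).1 + (vA A x).2 * (vA A x).2) -
      (2 * t) * ((vA A x).1 * (vA C x).1 + (vA A x).2 * (vA C x).2) +
      t ^ 2 * ((vA C x).1 * (vA C x).1 + (vA C x).2 * (vA C x).2)) := by
    apply integral_nonneg
    intro x
    simp only [Pi.zero_apply]
    nlinarith [sq_nonneg ((vA A x).1 - t * (vA C x).1), sq_nonneg ((vA A x).2 - t * (vA C x).2)]
  rw [lin _ _ _ _ _ i1 i2 i3, e1, e2, e3] at h1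
  linarith

end VD.M_E7

namespace VD

/-- positivity and Cauchy-Schwarz for BG -/
theorem mE7 (hK9 : StK9) (hE4 : StE4) : StE7 := by
  intro A C hA hC hAO hCO hAb hCb
  have hq := fun t : ℝ => M_E7.quad hE4 A C hA hC hAO hCO hAb hCb t
  have hAv : volume A < ∞ := by
    obtain ⟨R, hR⟩ := hAb
    exact vol_lt_top hR
  have hAn : nu A < ∞ := by
    obtain ⟨R, hR⟩ := hAb
    exact nu_lt_top hR
  have hCv : volume C < ∞ := by
    obtain ⟨R, hR⟩ := hCb
    exact vol_lt_top hR
  have hCn : nu C < ∞ := by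
    obtain ⟨R, hR⟩ := hCb
    exact nu_lt_top hR
  have hCC : 0 ≤ BG C C := (hK9.1 C C hC hC hCO hCO hCv hCv hCn hCn).2.2.1
  constructor
  · have := hq 1
    linarith
  · rcases hCC.lt_or_eq with h | h
    · have h1 := hq (BG A C / BG C C)
      have h2 : BG A A - 2 * (BG A C / BG C C) * BG A C + (BG A C / BG C C) ^ 2 * BG C C =
          (BG A A * BG C C - BG A C ^ 2) / BG C C := by
        field_simp
        ring
      rw [h2] at h1
      have h3 : 0 ≤ BG A A * BG C C - BG A C ^ 2 := by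
        by_contra hc
        push Not at hc
        have := div_neg_of_neg_of_pos hc h
        linarith
      linarith
    · rw [← h]
      have h1 : BG A C = 0 := by
        by_contra hne
        have h2 := hq ((BG A A + 1) / (2 * BG A C))
        rw [← h] at h2
        have h3 : 2 * ((BG A A + 1) / (2 * BG A C)) * BG A C = BG A A + 1 := by
          field_simp
        rw [h3] at h2
        linarith
      rw [h1]
      simp

end VD
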